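import Mathlib
import Pool.Agent.X115.KB.E

/-!
# Classification of the `(n/2)`-bent functions

The `(n/2)`-bent functions in `n = 2 m` variables are exactly the functions
`∑_{i<j in A} x_i x_j + ∑_{i<j not in A} x_i x_j + (affine)`, `A` a set of coordinates of even size.
For `n ≥ 4` they are also exactly the `2`-bent functions.

Proof. A bent function is `2`-bent if and only if its dual `g` satisfies
`g(y) + g(y + e_i + e_j) + g(y + e_k + e_l) + g(y + e_i + e_j + e_k + e_l) = 0` whenever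
`y_i ≠ y_j`, `y_k ≠ y_l`, which means that `g` is affine on the set of vectors of every given weight.
The flats `{x : x_i ≠ x_j for all pairs of a perfect matching}` of dimension `m` lie in the middle
slice, so `g` is affine on them and hence, up to an affine function, balanced on the other cosets.
This determines `g` inductively on the slices of weight `m ± 2, m ± 4, ...`, and the cosets with one
pair `x_i = x_j` do the same for the other slices.
-/

set_option autoImplicit false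

open Finset

namespace Pool.Agent.Results.MP_0e3175_co.Classification

/-- `u_i(x)`, the sum of the two coordinates of the `i`-th pair -/
def u {m : ℕ} (i : Fin m) (x : Fin (2 * m) → ZMod 2) : ZMod 2 :=
  x ⟨2 * i, by omega⟩ + x ⟨2 * i + 1, by omega⟩

/-- `⟨x, y⟩_k` -/
def form {m : ℕ} (k : ℕ) (x y : Fin (2 * m) → ZMod 2) : ZMod 2 :=
  ∑ i, x i * y i + ∑ i : Fin m, ∑ j : Fin m with i ≤ j ∧ j.val < k, u i x * u j x * u i y * u j y

/-- The `k`-Walsh-Hadamard transform. -/
def walsh {m : ℕ} (k : ℕ) (f : (Fin (2 * m) → ZMod 2) → ZMod 2) (y : Fin (2 * m) → ZMod 2) : ℤ :=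
  ∑ x, (-1) ^ (f x + form k x y).val

/-- `f` is `k`-bent. -/
def IsBent {m : ℕ} (k : ℕ) (f : (Fin (2 * m) → ZMod 2) → ZMod 2) : Prop :=
  ∀ (π : Equiv.Perm (Fin (2 * m))) (j : ℕ), 1 ≤ j → j ≤ k → ∀ y,
    walsh j (fun x => f (x ∘ π)) y = 2 ^ m ∨ walsh j (fun x => f (x ∘ π)) y = - 2 ^ m

/-- The complete quadratic form `∑_{i<j in A} x_i x_j`. -/
def quad {m : ℕ} (A : Finset (Fin (2 * m))) (x : Fin (2 * m) → ZMod 2) : ZMod 2 :=
  ∑ i ∈ A, ∑ j ∈ A with i < j, x i * x j

open Pool.Agent.X115.KB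

lemma walsh_eq {m : ℕ} (j : ℕ) (f : (Fin (2 * m) → ZMod 2) → ZMod 2) (y : Fin (2 * m) → ZMod 2) :
    walsh j f y = ∑ x, sgn (f x + dot x y + (K {i : Fin m | i.val < j} (fun k => up k y * up k x) +
      ∑ k : Fin m with k.val < j, up k y * up k x)) := by
  unfold walsh sgn
  refine sum_congr rfl fun x _ => ?_
  congr 2
  rw [← quad_eq, add_assoc]
  congr 1
  unfold form
  congr 1
  refine sum_congr rfl fun i _ => ?_
  refine sum_congr rfl fun i' _ => ?_
  change up i x * up i' x * up i y * up i' y = _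
  ring

lemma K_singleton {ι : Type*} [LinearOrder ι] (a : ι) (x : ι → ZMod 2) : K {a} x = 0 := by
  have h := K_insert (a := a) (s := ∅) (by simp) x
  rw [insert_empty_eq] at h
  rw [h]
  simp [K]

/-! ## The functions of the class are bent -/

lemma cls_perm {m : ℕ} {A : Finset (Fin (2 * m))} {f : (Fin (2 * m) → ZMod 2) → ZMod 2}
    (hA : Even #A) (hf : Cls A f) (π : Equiv.Perm (Fin (2 * m))) :
    ∃ A' : Finset (Fin (2 * m)), Even #A' ∧ Cls A' (fun x => f (x ∘ π)) := by
  obtain ⟨l, c, hf⟩ := hf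
  refine ⟨A.map π.toEmbedding, by rwa [card_map], l ∘ π.symm, c, fun x => ?_⟩
  have h1 : K (A.map π.toEmbedding) x = K A (x ∘ π) := by
    rw [(K_eq_choose _ _).1, (K_eq_choose _ _).1]
    congr 2
    exact (card_equiv π (fun i => by simp)).symm
  have h2 : K (A.map π.toEmbedding)ᶜ x = K Aᶜ (x ∘ π) := by
    rw [(K_eq_choose _ _).1, (K_eq_choose _ _).1]
    congr 2
    exact (card_equiv π (fun i => by simp)).symm
  have h3 : dot (l ∘ π.symm) x = dot l (x ∘ π) := by
    unfold dot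
    rw [← Equiv.sum_comp π]
    simp
  rw [h1, h2, h3]
  exact hf _

lemma cls_isBent {m : ℕ} {A : Finset (Fin (2 * m))} {f : (Fin (2 * m) → ZMod 2) → ZMod 2}
    (hA : Even #A) (hf : Cls A f) (k : ℕ) : IsBent k f := by
  intro π j _ _ y
  obtain ⟨A', hA', hf'⟩ := cls_perm hA hf π
  obtain ⟨g, hg, h⟩ := dual_cls (m := m) (by simp) hA' hf'
  obtain ⟨c, hc⟩ := trans_value h (cls_noInt hg) {i : Fin m | i.val < j} y
  rw [walsh_eq, hc]
  rcases sgn_eq c with h' | h' <;> rw [h']
  · left; ring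
  · right; ring

/-! ## Bent functions belong to the class -/

lemma inversion {m : ℕ} {f g : (Fin (2 * m) → ZMod 2) → ZMod 2}
    (h : ∀ y, ∑ x, sgn (f x + dot x y) = 2 ^ m * sgn (g y)) (z : Fin (2 * m) → ZMod 2) :
    ∑ y, sgn (g y + dot y z) = 2 ^ m * sgn (f z) := by
  have h1 : (2 : ℤ) ^ m * ∑ y, sgn (g y + dot y z) = 2 ^ m * (2 ^ m * sgn (f z)) := by
    calc (2 : ℤ) ^ m * ∑ y, sgn (g y + dot y z)
        = ∑ y, ∑ x, sgn (f x) * sgn (dot y (x + z)) := by
          rw [mul_sum]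
          refine sum_congr rfl fun y _ => ?_
          rw [sgn_add, ← mul_assoc, ← h y, sum_mul]
          refine sum_congr rfl fun x _ => ?_
          rw [sgn_add, dot_add, sgn_add, dot_comm x y, mul_assoc]
      _ = ∑ x, sgn (f x) * ∑ y, sgn (dot y (x + z)) := by
          rw [sum_comm]
          refine sum_congr rfl fun x _ => ?_
          rw [mul_sum]
      _ = ∑ x, if x = z then sgn (f x) * (2 ^ m * 2 ^ m) else 0 := by
          refine sum_congr rfl fun x _ => ?_
          rw [sum_sgn_dot']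
          have hc : (Fintype.card (Fin (2 * m) → ZMod 2) : ℤ) = 2 ^ m * 2 ^ m := by
            rw [Fintype.card_fun, ZMod.card, Fintype.card_fin, ← pow_add, two_mul]; push_cast; rfl
          rw [hc]
          by_cases hx : x = z
          · rw [if_pos hx, if_pos (by rw [hx]; exact add_self z)]
          · rw [if_neg hx, if_neg, mul_zero]
            rw [add_eq_zero_iff]
            exact fun h => hx h.symm
      _ = 2 ^ m * (2 ^ m * sgn (f z)) := by
          rw [sum_ite_eq' univ z]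
          simp only [mem_univ, if_true]
          ring
  have : (2 : ℤ) ^ m ≠ 0 := by positivity
  exact mul_left_cancel₀ this h1

lemma exists_dual {m : ℕ} (hm : 1 ≤ m) {f : (Fin (2 * m) → ZMod 2) → ZMod 2} (hf : IsBent 1 f) :
    ∃ g : (Fin (2 * m) → ZMod 2) → ZMod 2, ∀ y, ∑ x, sgn (f x + dot x y) = 2 ^ m * sgn (g y) := by
  have hS : (univ.filter (fun i : Fin m => i.val < 1)) = {⟨0, by omega⟩} := by
    ext i
    simp only [mem_filter, mem_univ, true_and, mem_singleton, Fin.ext_iff]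
    omega
  have h1 : ∀ y, walsh 1 f y = ∑ x, sgn (f x + dot x y + up ⟨0, by omega⟩ y * up ⟨0, by omega⟩ x) := by
    intro y
    rw [walsh_eq, hS]
    refine sum_congr rfl fun x _ => ?_
    congr 2
    rw [K_singleton, sum_singleton, zero_add]
  have h2 : ∀ y, ∑ x, sgn (f x + dot x y) = 2 ^ m ∨ ∑ x, sgn (f x + dot x y) = - 2 ^ m := by
    intro z
    have key : ∀ y, walsh 1 f y = 2 ^ m ∨ walsh 1 f y = - 2 ^ m := fun y =>
      hf 1 1 le_rfl le_rfl y
    rcases zmod_cases (up ⟨0, by omega⟩ z) with h | h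
    · have h3 := key z
      rw [h1] at h3
      simpa [h] using h3
    · have h3 := key (z + EP ⟨0, by omega⟩)
      rw [h1] at h3
      simp only [up_add_EP, h, one_mul] at h3
      have h4 : ∀ x, f x + dot x (z + EP ⟨0, by omega⟩) + up ⟨0, by omega⟩ x = f x + dot x z := by
        intro x
        rw [dot_add, dot_EP]
        have : ∀ a b c : ZMod 2, a + (b + c) + c = a + b := by decide
        exact this _ _ _
      simpa only [h4] using h3
  refine ⟨fun y => if ∑ x, sgn (f x + dot x y) = 2 ^ m then 0 else 1, fun y => ?_⟩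
  by_cases h : ∑ x, sgn (f x + dot x y) = 2 ^ m
  · simp only [h, if_true, sgn_zero, mul_one]
  · simp only [h, if_false, sgn_one]
    rw [(h2 y).resolve_left h]; ring

lemma dual_swap2 {m : ℕ} (hm : 2 ≤ m) {f g : (Fin (2 * m) → ZMod 2) → ZMod 2} (hf : IsBent 2 f)
    (hg : ∀ y, ∑ x, sgn (f x + dot x y) = 2 ^ m * sgn (g y)) : Swap2 g := by
  intro Y i j k l hij hkl hik hil hjk hjl hYij hYkl
  set k0 : Fin m := ⟨0, by omega⟩ with hk0
  set k1 : Fin m := ⟨1, by omega⟩ with hk1
  have hk01 : k0 ≠ k1 := by simp [hk0, hk1]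
  obtain ⟨ρ, hρ⟩ := Equiv.Perm.exists_extending_pair ![fa k0, fb k0, fa k1, fb k1] ![i, j, k, l]
    (by
      intro a b hab
      have e1 := fa_ne_fb k0 k0
      have e2 := fa_ne_fb k0 k1
      have e3 := fa_ne_fb k1 k0
      have e4 := fa_ne_fb k1 k1
      have e5 := fa_inj hk01
      have e6 := fb_inj hk01
      fin_cases a <;> fin_cases b <;> simp_all [Ne.symm])
    (by
      intro a b hab
      fin_cases a <;> fin_cases b <;> simp_all [Ne.symm])
  have hρ0 : ρ (fa k0) = i := hρ 0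
  have hρ1 : ρ (fb k0) = j := hρ 1
  have hρ2 : ρ (fa k1) = k := hρ 2
  have hρ3 : ρ (fb k1) = l := hρ 3
  set f' : (Fin (2 * m) → ZMod 2) → ZMod 2 := fun x => f (x ∘ ρ.symm) with hf'
  have hW : ∀ Z : Fin (2 * m) → ZMod 2, ∑ x, sgn (f' x + dot x (Z ∘ ρ)) = 2 ^ m * sgn (g Z) := by
    intro Z
    rw [← hg Z]
    let T : (Fin (2 * m) → ZMod 2) ≃ (Fin (2 * m) → ZMod 2) :=
      Equiv.arrowCongr ρ.symm (Equiv.refl _)
    have hT : ∀ x, T x = x ∘ ρ := fun x => rfl
    rw [← Equiv.sum_comp T]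
    refine sum_congr rfl fun x _ => ?_
    rw [hT]
    congr 2
    · simp only [hf']
      congr 1
      ext a; simp
    · unfold dot
      rw [← Equiv.sum_comp ρ (fun i => x i * Z i)]
      rfl
  have hE : ∀ Z : Fin (2 * m) → ZMod 2, (Z + E i j) ∘ ρ = Z ∘ ρ + EP k0 := by
    intro Z
    ext a
    simp only [Function.comp_apply, Pi.add_apply, EP, E]
    rw [← hρ0, ← hρ1]
    simp [Pi.single_apply]
  have hE' : ∀ Z : Fin (2 * m) → ZMod 2, (Z + E k l) ∘ ρ = Z ∘ ρ + EP k1 := by
    intro Z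
    ext a
    simp only [Function.comp_apply, Pi.add_apply, EP, E]
    rw [← hρ2, ← hρ3]
    simp [Pi.single_apply]
  have hu0 : up k0 (Y ∘ ρ) = 1 := by
    unfold up; simp only [Function.comp_apply]; rw [hρ0, hρ1]; exact zmod_ne' _ _ hYij
  have hu1 : up k1 (Y ∘ ρ) = 1 := by
    unfold up; simp only [Function.comp_apply]; rw [hρ2, hρ3]; exact zmod_ne' _ _ hYkl
  have hS : (univ.filter (fun i : Fin m => i.val < 2)) = insert k1 {k0} := by
    ext i
    simp only [mem_filter, mem_univ, true_and, mem_singleton, mem_insert, Fin.ext_iff, hk0, hk1]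
    omega
  have h1 : walsh 2 f' (Y ∘ ρ) = ∑ x, sgn (f' x + dot x (Y ∘ ρ) +
      (up k0 x * up k1 x + (up k1 x + up k0 x))) := by
    rw [walsh_eq, hS]
    refine sum_congr rfl fun x _ => ?_
    congr 2
    rw [K_insert (by intro a ha; rw [mem_singleton] at ha; subst ha; simp [hk0, hk1, Fin.lt_def]),
      sum_singleton, sum_insert (by simpa using hk01.symm), sum_singleton]
    simp only [hu0, hu1, one_mul]
    rw [K_singleton, zero_add, mul_comm (up k1 x)]
  have h2 : 2 * walsh 2 f' (Y ∘ ρ) = 2 ^ m * (- sgn (g Y) + sgn (g (Y + E i j)) +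
      sgn (g (Y + E k l)) + sgn (g (Y + E i j + E k l))) := by
    have e1 := hW Y
    have e2 := hW (Y + E i j)
    have e3 := hW (Y + E k l)
    have e4 := hW (Y + E i j + E k l)
    rw [hE] at e2
    rw [hE'] at e3
    rw [hE', hE] at e4
    have : (2 : ℤ) ^ m * (- sgn (g Y) + sgn (g (Y + E i j)) +
      sgn (g (Y + E k l)) + sgn (g (Y + E i j + E k l))) = - (2 ^ m * sgn (g Y)) +
      2 ^ m * sgn (g (Y + E i j)) + 2 ^ m * sgn (g (Y + E k l)) +
      2 ^ m * sgn (g (Y + E i j + E k l)) := by ring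
    rw [this, ← e1, ← e2, ← e3, ← e4, h1, mul_sum, ← sum_neg_distrib, ← sum_add_distrib,
      ← sum_add_distrib, ← sum_add_distrib]
    refine sum_congr rfl fun x _ => ?_
    rw [dot_add, dot_add, dot_add, dot_add, dot_EP, dot_EP]
    generalize f' x = a, dot x (Y ∘ ρ) = b, up k0 x = c, up k1 x = d
    revert a b c d
    decide
  have h3 := hf ρ.symm 2 (by norm_num) le_rfl (Y ∘ ρ)
  have h4 : - sgn (g Y) + sgn (g (Y + E i j)) + sgn (g (Y + E k l)) +
      sgn (g (Y + E i j + E k l)) = 2 ∨ - sgn (g Y) + sgn (g (Y + E i j)) + sgn (g (Y + E k l)) +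
      sgn (g (Y + E i j + E k l)) = - 2 := by
    have hpos : (2 : ℤ) ^ m ≠ 0 := by positivity
    rcases h3 with h | h
    · left
      apply mul_left_cancel₀ hpos
      rw [← h2]
      show 2 * walsh 2 f' (Y ∘ ρ) = _
      rw [show walsh 2 f' (Y ∘ ρ) = 2 ^ m from h]; ring
    · right
      apply mul_left_cancel₀ hpos
      rw [← h2]
      show 2 * walsh 2 f' (Y ∘ ρ) = _
      rw [show walsh 2 f' (Y ∘ ρ) = - 2 ^ m from h]; ring
  have : ∀ a b c d : ZMod 2, (- sgn a + sgn b + sgn c + sgn d = 2 ∨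
      - sgn a + sgn b + sgn c + sgn d = - 2) → a + b + c + d = 0 := by decide
  exact this _ _ _ _ h4

lemma two_bent_cls {m : ℕ} (hm : 2 ≤ m) {f : (Fin (2 * m) → ZMod 2) → ZMod 2} (hf : IsBent 2 f) :
    ∃ A : Finset (Fin (2 * m)), Even #A ∧ Cls A f := by
  obtain ⟨g, hg⟩ := exists_dual (by omega) (fun π j h1 h2 y => hf π j h1 (by omega) y)
  have hswap := dual_swap2 hm hf hg
  have hinv := inversion hg
  obtain ⟨b0, b1, c0, c1, hb, hQ⟩ := classify hm (by simp) (cls_bent hinv) hswap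
  obtain ⟨l, c, hl⟩ := Q_cls m b0 b1 c0 c1
  set A : Finset (Fin (2 * m)) := {i | b0 i + b1 i = 1} with hAdef
  have hA : Even #A := by
    have h1 : ((#A : ℕ) : ZMod 2) = 0 := by
      have h2 : ((#A : ℕ) : ZMod 2) = ∑ i, (b0 i + b1 i) := by
        rw [hAdef, card_filter]
        push_cast
        refine sum_congr rfl fun i _ => ?_
        rcases zmod_cases (b0 i + b1 i) with h | h <;> rw [h] <;> simp
      rw [h2, sum_add_distrib, hb]
      exact zmod_add_self _
    rw [ZMod.natCast_eq_zero_iff] at h1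
    exact even_iff_two_dvd.2 h1
  refine ⟨A, hA, ?_⟩
  have hgc : Cls A g := ⟨l, c, fun x => (hQ x).trans (hl x)⟩
  obtain ⟨h, hh, hh2⟩ := dual_cls (m := m) (by simp) hA hgc
  have : f = h := by
    funext y
    apply sgn_inj
    have e1 := hh2 y
    rw [hinv y] at e1
    have hpos : (2 : ℤ) ^ m ≠ 0 := by positivity
    exact mul_left_cancel₀ hpos e1
  rw [this]
  exact hh

lemma one_bent_cls {f : (Fin (2 * 1) → ZMod 2) → ZMod 2} (hf : IsBent 1 f) :
    ∃ A : Finset (Fin (2 * 1)), Even #A ∧ Cls A f := by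
  obtain ⟨g, hg⟩ := exists_dual le_rfl hf
  have h0 := hg 0
  simp only [dot_zero, add_zero] at h0
  let e : ZMod 2 × ZMod 2 ≃ (Fin (2 * 1) → ZMod 2) := (finTwoArrowEquiv (ZMod 2)).symm
  have he : ∀ a b, e (a, b) = ![a, b] := fun a b => rfl
  rw [← Equiv.sum_comp e, Fintype.sum_prod_type] at h0
  simp only [he] at h0
  have h1 : ∀ F : ZMod 2 → ℤ, ∑ a, F a = F 0 + F 1 := fun F => Fin.sum_univ_two F
  rw [h1, h1, h1] at h0
  have h2 : f ![0, 0] + f ![0, 1] + f ![1, 0] + f ![1, 1] = 1 := by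
    revert h0
    generalize f ![0, 0] = a, f ![0, 1] = b, f ![1, 0] = c, f ![1, 1] = d, g 0 = t
    revert a b c d t
    decide
  refine ⟨∅, by simp, ![f ![1, 0] + f ![0, 0], f ![0, 1] + f ![0, 0]], f ![0, 0], fun x => ?_⟩
  have hK : K (∅ : Finset (Fin (2 * 1)))ᶜ x = x 0 * x 1 := by
    have h3 : (∅ : Finset (Fin (2 * 1)))ᶜ = insert (1 : Fin (2 * 1)) {(0 : Fin (2 * 1))} := by decide
    rw [h3, K_insert (by intro a ha; rw [mem_singleton] at ha; subst ha; decide), K_singleton,
      sum_singleton, zero_add, mul_comm]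
  have hx : x = ![x 0, x 1] := by ext i; fin_cases i <;> rfl
  have hd : dot ![f ![1, 0] + f ![0, 0], f ![0, 1] + f ![0, 0]] x =
      (f ![1, 0] + f ![0, 0]) * x 0 + (f ![0, 1] + f ![0, 0]) * x 1 := by
    unfold dot
    exact Fin.sum_univ_two _
  rw [hK, hd]
  have hK0 : K (∅ : Finset (Fin (2 * 1))) x = 0 := by simp [K]
  rw [hK0]
  have h5 : ∀ a b : ZMod 2, f ![a, b] = 0 + a * b +
      ((f ![1, 0] + f ![0, 0]) * a + (f ![0, 1] + f ![0, 0]) * b) + f ![0, 0] := by
    intro a b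
    rcases zmod_cases a with rfl | rfl <;> rcases zmod_cases b with rfl | rfl
    · generalize f ![0, 0] = a, f ![0, 1] = b, f ![1, 0] = c
      revert a b c; decide
    · generalize f ![0, 0] = a, f ![0, 1] = b, f ![1, 0] = c
      revert a b c; decide
    · generalize f ![0, 0] = a, f ![0, 1] = b, f ![1, 0] = c
      revert a b c; decide
    · revert h2
      generalize f ![0, 0] = a, f ![0, 1] = b, f ![1, 0] = c, f ![1, 1] = d
      revert a b c d; decide
  have h6 := h5 (x 0) (x 1)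
  rw [← hx] at h6
  exact h6

/-- **Main result.** For every `n = 2 m ≥ 2` the `(n/2)`-bent functions in `n` variables are exactly
the functions `∑_{i<j in A} x_i x_j + ∑_{i<j not in A} x_i x_j + ∑ l_i x_i + c` with a set `A` of
coordinates of even size. For `n ≥ 4` every `2`-bent function is `(n/2)`-bent. -/
theorem result (m : ℕ) (hm : 1 ≤ m) (f : (Fin (2 * m) → ZMod 2) → ZMod 2) :
    (IsBent m f ↔ ∃ (A : Finset (Fin (2 * m))) (l : Fin (2 * m) → ZMod 2) (c : ZMod 2), Even #A ∧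
      ∀ x, f x = quad A x + quad Aᶜ x + ∑ i, l i * x i + c) ∧
    (2 ≤ m → (IsBent 2 f ↔ IsBent m f)) := by
  have h1 : (∃ A : Finset (Fin (2 * m)), Even #A ∧ Cls A f) → ∀ k, IsBent k f := by
    rintro ⟨A, hA, hf⟩ k
    exact cls_isBent hA hf k
  have h2 : IsBent m f → ∃ A : Finset (Fin (2 * m)), Even #A ∧ Cls A f := by
    intro h
    rcases hm.eq_or_lt with h' | h'
    · subst h'
      exact one_bent_cls h
    · exact two_bent_cls h' (fun π j h1 h2 y => h π j h1 (by omega) y)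
  refine ⟨⟨fun h => ?_, fun h => ?_⟩, fun hm2 => ⟨fun h => h1 (two_bent_cls hm2 h) m,
    fun h => h1 (h2 h) 2⟩⟩
  · obtain ⟨A, hA, l, c, hf⟩ := h2 h
    exact ⟨A, l, c, hA, hf⟩
  · obtain ⟨A, l, c, hA, hf⟩ := h
    exact h1 ⟨A, hA, l, c, hf⟩ m

end Pool.Agent.Results.MP_0e3175_co.Classification
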